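import Pool.Agent.MWGR.StmtsF

/-!
# The edge `rh` is join prime (row JRH of squad MWGR)

Problem MP_23468a_al.
-/

set_option autoImplicit false

namespace Pool.Agent.MWGR.H76

open Pool.Agent.Helper14_MV Pool.Agent.Helper2_MV Pool.Agent.MVO Pool.Agent.MWL Pool.Agent.MWS
  Pool.Agent.MWH
open Pool.Agent.MWGR

/-- the left word -/
def Bl (j : ℕ) : List ℕ := [[0], [1, 0, 0], [1]].getD j []

/-- the right word -/
def Br (n j : ℕ) : List ℕ := [[0], X n ++ [1, 0, 0], [1]].getD j []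

/-- the invariant -/
def AA (B : ℕ → List ℕ) : Prop :=
  ∃ t r, 1 ≤ t ∧ 1 ≤ r ∧ B 0 = [0] ∧ B 1 = 1 :: X t ∧ B 2 = Y r

theorem asm2 (B : ℕ → List ℕ) : asm 2 B = (B 0 ++ 2 :: B 1) ++ 3 :: B 2 := rfl

theorem deg2 (a : ℕ → ℕ) : deg 2 a = a 0 + a 1 + a 2 := by
  simp [deg, Finset.sum_range_succ]

theorem ns0 : NS 2 0 := by unfold NS; omega

theorem ns1 : NS 2 1 := by unfold NS; omega

theorem lt3 {j : ℕ} (h : j ≤ 2) : j = 0 ∨ j = 1 ∨ j = 2 := by omega

theorem bl01 : ∀ j ≤ 2, ∀ c ∈ Bl j, c = 0 ∨ c = 1 := by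
  intro j hj c hc
  rcases lt3 hj with rfl | rfl | rfl <;> simp [Bl] at hc <;> omega

theorem br01 (n : ℕ) : ∀ j ≤ 2, ∀ c ∈ Br n j, c = 0 ∨ c = 1 := by
  intro j hj c hc
  rcases lt3 hj with rfl | rfl | rfl <;> simp [Br] at hc <;> omega

theorem okl : OkB 2 Bl := by
  refine ⟨?_, ?_⟩
  · intro j hj c hc
    rcases bl01 j hj c hc with rfl | rfl
    · exact ns0
    · exact ns1
  · intro j hj c hc
    rw [deg2]
    rcases bl01 j hj c hc with rfl | rfl <;> simp [Bl]

theorem okr (n : ℕ) : OkB 2 (Br n) := by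
  refine ⟨?_, ?_⟩
  · intro j hj c hc
    rcases br01 n j hj c hc with rfl | rfl
    · exact ns0
    · exact ns1
  · intro j hj c hc
    rw [deg2]
    rcases br01 n j hj c hc with rfl | rfl
    · simp [Br]
      omega
    · simp [Br, List.count_replicate]

theorem al (n : ℕ) : asm 2 Bl = Ed.rh.l n := rfl

theorem ar (n : ℕ) : asm 2 (Br n) = Ed.rh.r n := by
  rw [asm2]
  simp [Br, Ed.r]

theorem jrh (hJ : JpigStmt) (hB : BgbStmt) (hM : MnbStmt) (hS : StwStmt) (hF : FrmStmt)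
    (hI : ImpStmt) (hE : EalStmt) (hD : DalStmt) (hN : NtrStmt) : JrhStmt := by
  intro n β h
  have hbas := (hB n β h).1
  have key := hJ β hbas.cap 2 Bl (Br n) AA okl (okr n) ⟨2, 1, by omega, le_rfl, rfl, rfl, rfl⟩ ?_ ?_ ?_
  · rw [al n, ar n] at key
    exact key
  · rintro ⟨t, r, -, -, -, h1, -⟩
    have hn := h.pos
    obtain ⟨m, rfl⟩ : ∃ m, n = m + 1 := ⟨n - 1, by omega⟩
    simp [Br, List.replicate_succ] at h1
  · rintro B B' hBB ⟨t, r, ht, hr, h0, h1, h2⟩
    refine ⟨t, r, ht, hr, ?_, ?_, ?_⟩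
    · rw [← hBB 0 (by omega)]; exact h0
    · rw [← hBB 1 (by omega)]; exact h1
    · rw [← hBB 2 le_rfl]; exact h2
  · intro θ hle hnc hno B B' okB okB' hs hs' hRR hA
    have hg : BG n (RR θ) := (hM n β θ hle).1 h
    rw [al n, ar n] at hno
    have hnE : ¬ Has n (FC.ofFIC θ) Bit.E := by
      intro hh
      exact hno ((hI n θ).2.1 (hE n θ hg hh).2.1)
    have hnD : ¬ Has n (FC.ofFIC θ) (Bit.D 0) := by
      intro hh
      exact hno ((hI n θ).2.1 (hD n θ hg hh).2.1)
    obtain ⟨t, r, ht, hr, h0, h1, h2⟩ := hA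
    have l01 : ∀ j ≤ 2, ∀ c ∈ B' j, c = 0 ∨ c = 1 := by
      intro j hj c hc
      obtain ⟨i, hi, hci⟩ := hs' c ⟨j, hj, hc⟩
      exact bl01 i hi c hci
    obtain ⟨-, s0⟩ := hS n β θ hbas hle hnc hnD hnE 2 B B' okB okB' hRR 0 ns0
      ⟨0, by omega, by rw [h0]; simp⟩
    obtain ⟨d1, s1⟩ := hS n β θ hbas hle hnc hnD hnE 2 B B' okB okB' hRR 1 ns1
      ⟨1, by omega, by rw [h1]; simp⟩
    rw [deg2] at d1
    -- the letter 0
    have a0 := ((s0 0 (by omega)).1 (by intro p hp; omega)).1.1 (by unfold ty; rw [h0]; simp)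
    have a1 := (s0 1 (by omega)).2.1 (by
      intro q hq hq2
      have : q = 2 := by omega
      subst this
      unfold ty
      rw [h2]
      simp [List.count_replicate])
    have a1' : ty B' 0 1 ≠ 0 := by
      intro hh
      have := a1.1.2 hh
      unfold ty at this
      rw [h1] at this
      simp at this
      omega
    have a2 := a1.2 2 (by omega) le_rfl
    -- the letter 1
    have b1 := (s1 1 (by omega)).1 (by
      intro p hp
      have : p = 0 := by omega
      subst this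
      unfold ty
      rw [h0]
      simp)
    have b1' := b1.1.1 (by
      unfold ty
      rw [h1]
      simp [List.count_replicate])
    have b0 := b1.2.2 0 (by omega)
    have f0 := (hF.1 (B' 0) (l01 0 (by omega))).2.1 b0
    obtain ⟨s', t', f1, f1'⟩ := (hF.1 (B' 1) (l01 1 (by omega))).1 b1'
    have f2 := (hF.1 (B' 2) (l01 2 le_rfl)).2.2 a2
    have g0 : B' 0 = [0] := by
      rw [f0]
      change X (ty B' 0 0) = _
      rw [a0]
      rfl
    have hst : 1 ≤ s' + t' := by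
      rw [← f1']
      unfold ty at a1'
      omega
    have hr' : 1 ≤ (B' 2).count 1 := by
      unfold ty at d1 b1' b0
      omega
    rcases Nat.eq_zero_or_pos s' with hs0 | hs0
    · subst hs0
      exact ⟨t', (B' 2).count 1, by omega, hr', g0, by simpa using f1, f2⟩
    · exfalso
      apply hno
      apply hN n θ hg t s' t' r ((B' 2).count 1) ht hs0 hr hr'
      rw [asm2, asm2, h0, h1, h2, g0, f1, f2] at hRR
      simpa using hRR

end Pool.Agent.MWGR.H76
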